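import Pool.Agent.H24.RCM.Targets

/-! Row NMM of `rct_modules`: the numerical contradiction. -/

set_option autoImplicit false

open NumberField Polynomial nonZeroDivisors Pool.Agent.H26.NL Pool.Agent.H24.RCM

namespace Pool.Agent.H79.RCM

theorem pf_NMM : T_NMM := by
  intro d p k q κ m s S hk hκ hd5 hq h
  obtain ⟨D, rfl⟩ : ∃ D, d = D + 1 := ⟨d - 1, by omega⟩
  rw [Nat.add_sub_cancel] at h
  have hp : 0 < p := S.hp.pos
  have h2 : p ^ k * (q - 1) < q ^ (D + 1) := by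
    have := S.q_pow
    rw [this, mul_comm]
    omega
  have h3 : (p ^ (4 * m * s)) ^ 5 ≤ (p ^ k) ^ 4 := by
    rw [← pow_mul, ← pow_mul]
    refine Nat.pow_le_pow_right hp ?_
    rw [hk]
    calc 4 * m * s * 5 = m * (5 * s) * 4 := by ring
      _ ≤ m * κ * 4 := Nat.mul_le_mul_right _ (Nat.mul_le_mul_left _ hκ)
      _ = κ * m * 4 := by ring
  have h1 : (q ^ D) ^ 5 ≤ (2 ^ D) ^ 5 * (p ^ k) ^ 4 := by
    refine (Nat.pow_le_pow_left h 5).trans ?_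
    rw [mul_pow]
    exact Nat.mul_le_mul_left _ h3
  have h4 : (p ^ k * (q - 1)) ^ 4 < (q ^ (D + 1)) ^ 4 := Nat.pow_lt_pow_left h2 (by norm_num)
  obtain ⟨w, rfl⟩ : ∃ w, q = w + 33 := ⟨q - 33, by omega⟩
  have h5 : (w + 33 - 1) = w + 32 := by omega
  rw [h5] at h4
  have h6 : ((w + 33) ^ D) ^ 5 * (w + 32) ^ 4
      < (2 ^ D) ^ 5 * (((w + 33) ^ D) ^ 4 * (w + 33) ^ 4) := by
    calc ((w + 33) ^ D) ^ 5 * (w + 32) ^ 4
        ≤ ((2 ^ D) ^ 5 * (p ^ k) ^ 4) * (w + 32) ^ 4 := Nat.mul_le_mul_right _ h1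
      _ = (2 ^ D) ^ 5 * (p ^ k * (w + 32)) ^ 4 := by ring
      _ < (2 ^ D) ^ 5 * ((w + 33) ^ (D + 1)) ^ 4 :=
          Nat.mul_lt_mul_of_pos_left h4 (by positivity)
      _ = _ := by ring
  have h7 : (w + 33) ^ D * (w + 32) ^ 4 < (2 ^ D) ^ 5 * (w + 33) ^ 4 := by
    have h8 : ((w + 33) ^ D) ^ 4 * ((w + 33) ^ D * (w + 32) ^ 4)
        < ((w + 33) ^ D) ^ 4 * ((2 ^ D) ^ 5 * (w + 33) ^ 4) := by
      calc _ = ((w + 33) ^ D) ^ 5 * (w + 32) ^ 4 := by ring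
        _ < _ := h6
        _ = _ := by ring
    exact Nat.lt_of_mul_lt_mul_left h8
  have h8 : 33 ^ D ≤ (w + 33) ^ D := Nat.pow_le_pow_left (by omega) D
  have h9 : (2 ^ D) ^ 5 = 32 ^ D := by
    rw [← pow_mul, mul_comm D 5, pow_mul]
    norm_num
  rw [h9] at h7
  have h11 : 33 ^ D * (w + 32) ^ 4 < 32 ^ D * (w + 33) ^ 4 :=
    lt_of_le_of_lt (Nat.mul_le_mul_right _ h8) h7
  obtain ⟨i, rfl⟩ : ∃ i, D = i + 4 := ⟨D - 4, by omega⟩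
  have h12 : 32 ^ i ≤ 33 ^ i := Nat.pow_le_pow_left (by norm_num) i
  have h13 : (32 * (w + 33)) ^ 4 ≤ (33 * (w + 32)) ^ 4 := Nat.pow_le_pow_left (by omega) 4
  have h14 : 32 ^ (i + 4) * (w + 33) ^ 4 ≤ 33 ^ (i + 4) * (w + 32) ^ 4 := by
    calc 32 ^ (i + 4) * (w + 33) ^ 4 = 32 ^ i * (32 * (w + 33)) ^ 4 := by ring
      _ ≤ 33 ^ i * (33 * (w + 32)) ^ 4 := Nat.mul_le_mul h12 h13
      _ = _ := by ring
  omega

end Pool.Agent.H79.RCM
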